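import Pool.Agent.Lib.SE.S4.Pr

/-!
# PROJECT SE, part S4: the normalised integrals on the curve `v^m = t^c (1-t)^b`

`Wf m c b σ t v = v^σ / (t^⌊σc/m⌋ (1-t)^⌊σb/m⌋)` is the branch of `t^μ (1-t)^ν`,
`μ = <σc/m>`, `ν = <σb/m>`, belonging to the point `(t,v)`.
`Al m c b σ t v` is the normalised value of `∫₀ᵗ` (or `-∫ₜ¹`) of `Wf / (t(1-t))`; it is locally
holomorphic up to the numbers `ζ^(aσ)`.
-/

set_option autoImplicit false

open MeasureTheory Complex Set Filter Topology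

noncomputable section

namespace SE.S4

/-- the fractional part `<σ c / m>` -/
def fr (m c σ : ℕ) : ℝ := ((σ * c % m : ℕ) : ℝ) / m

theorem fr_pos {m c σ : ℕ} (hm : 0 < m) (h : ¬ m ∣ σ * c) : 0 < fr m c σ := by
  unfold fr
  have h1 : 0 < σ * c % m := Nat.pos_of_ne_zero (fun h0 => h (Nat.dvd_of_mod_eq_zero h0))
  positivity

theorem fr_lt {m c σ : ℕ} (hm : 0 < m) : fr m c σ < 1 := by
  unfold fr
  rw [div_lt_one (by positivity)]
  exact_mod_cast Nat.mod_lt _ hm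

theorem fr_eq {m : ℕ} (c σ : ℕ) (hm : 0 < m) :
    (fr m c σ : ℂ) = (σ : ℂ) * (c / m) - ((σ * c / m : ℕ) : ℂ) := by
  have hm' : (m : ℂ) ≠ 0 := Nat.cast_ne_zero.mpr hm.ne'
  unfold fr
  have h : (((σ * c : ℕ) : ℂ)) = m * ((σ * c / m : ℕ) : ℂ) + ((σ * c % m : ℕ) : ℂ) := by
    exact_mod_cast (Nat.div_add_mod (σ * c) m).symm
  push_cast at h ⊢
  field_simp
  rw [h]
  ring

/-- the branch of `t^μ (1-t)^ν` at the point `(t, v)` -/
def Wf (m c b σ : ℕ) (t v : ℂ) : ℂ := v ^ σ / (t ^ (σ * c / m) * (1 - t) ^ (σ * b / m))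

theorem Wf_ne {m c b σ : ℕ} {t v : ℂ} (hm : 0 < m) (ht0 : t ≠ 0) (ht1 : 1 - t ≠ 0)
    (hv : v ^ m = t ^ c * (1 - t) ^ b) : Wf m c b σ t v ≠ 0 := by
  have h1 : v ≠ 0 := by
    rintro rfl
    rw [zero_pow hm.ne'] at hv
    exact mul_ne_zero (pow_ne_zero _ ht0) (pow_ne_zero _ ht1) hv.symm
  exact div_ne_zero (pow_ne_zero _ h1) (mul_ne_zero (pow_ne_zero _ ht0) (pow_ne_zero _ ht1))

theorem norm_Wf {m c b σ : ℕ} {t v : ℂ} (hm : 0 < m) (ht0 : t ≠ 0) (ht1 : 1 - t ≠ 0)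
    (hv : v ^ m = t ^ c * (1 - t) ^ b) :
    ‖Wf m c b σ t v‖ = ‖t‖ ^ (fr m c σ) * ‖1 - t‖ ^ (fr m b σ) := by
  have hm' : (m : ℝ) ≠ 0 := Nat.cast_ne_zero.mpr hm.ne'
  have p0 : 0 < ‖t‖ := norm_pos_iff.mpr ht0
  have p1 : 0 < ‖1 - t‖ := norm_pos_iff.mpr ht1
  have h1 : ‖v‖ = ‖t‖ ^ ((c : ℝ) / m) * ‖1 - t‖ ^ ((b : ℝ) / m) := by
    have h2 : ‖v‖ ^ m = ‖t‖ ^ c * ‖1 - t‖ ^ b := by
      rw [← norm_pow, hv, norm_mul, norm_pow, norm_pow]
    have h3 : (‖t‖ ^ ((c : ℝ) / m) * ‖1 - t‖ ^ ((b : ℝ) / m)) ^ m = ‖t‖ ^ c * ‖1 - t‖ ^ b := by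
      rw [mul_pow, ← Real.rpow_natCast, ← Real.rpow_natCast, ← Real.rpow_mul p0.le,
        ← Real.rpow_mul p1.le, div_mul_cancel₀ _ hm', div_mul_cancel₀ _ hm',
        Real.rpow_natCast, Real.rpow_natCast]
    exact (pow_left_inj₀ (norm_nonneg v) (by positivity) hm.ne').mp (h2.trans h3.symm)
  have e : ∀ n : ℕ, fr m n σ = (n : ℝ) / m * σ - ((σ * n / m : ℕ) : ℝ) := by
    intro n
    have := fr_eq n σ hm
    have h4 : ((fr m n σ : ℝ) : ℂ) = (((n : ℝ) / m * σ - ((σ * n / m : ℕ) : ℝ) : ℝ) : ℂ) := by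
      rw [this]
      push_cast
      ring
    exact_mod_cast h4
  unfold Wf
  rw [norm_div, norm_pow, norm_mul, norm_pow, norm_pow, h1, e, e, Real.rpow_sub p0,
    Real.rpow_sub p1, Real.rpow_natCast, Real.rpow_natCast, mul_pow, Real.rpow_mul p0.le,
    Real.rpow_mul p1.le, Real.rpow_natCast, Real.rpow_natCast]
  ring

theorem hasDerivAt_v {m c b : ℕ} (hm : 0 < m) {v : ℂ → ℂ} {t : ℂ} (ht0 : t ≠ 0)
    (ht1 : 1 - t ≠ 0) (hv : ∀ᶠ s in 𝓝 t, v s ^ m = s ^ c * (1 - s) ^ b)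
    (hd : DifferentiableAt ℂ v t) :
    HasDerivAt v (v t * ((c / m : ℂ) / t - (b / m : ℂ) / (1 - t))) t := by
  have hm' : (m : ℂ) ≠ 0 := Nat.cast_ne_zero.mpr hm.ne'
  have h1 : HasDerivAt (fun t : ℂ => 1 - t) (-1) t := by
    simpa using (hasDerivAt_id t).const_sub 1
  have h2 : HasDerivAt (fun s => s ^ c * (1 - s) ^ b) (t ^ c * (1 - t) ^ b *
      ((c : ℂ) / t - (b : ℂ) / (1 - t))) t := by
    refine ((hasDerivAt_pow c t).mul (h1.pow b)).congr_deriv ?_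
    have e1 : (c : ℂ) * t ^ (c - 1) = t ^ c * ((c : ℂ) / t) := by
      rcases Nat.eq_zero_or_pos c with h | h
      · subst h
        simp
      · obtain ⟨n, rfl⟩ : ∃ n, c = n + 1 := ⟨c - 1, by omega⟩
        rw [Nat.add_sub_cancel, pow_succ]
        field_simp
    have e2 : (b : ℂ) * (1 - t) ^ (b - 1) = (1 - t) ^ b * ((b : ℂ) / (1 - t)) := by
      rcases Nat.eq_zero_or_pos b with h | h
      · subst h
        simp
      · obtain ⟨n, rfl⟩ : ∃ n, b = n + 1 := ⟨b - 1, by omega⟩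
        rw [Nat.add_sub_cancel, pow_succ]
        field_simp
    simp only [Pi.pow_apply]
    rw [e1, e2]
    ring
  have h3 : HasDerivAt (fun s => v s ^ m) (m * v t ^ (m - 1) * deriv v t) t :=
    hd.hasDerivAt.pow m
  have h4 : HasDerivAt (fun s => v s ^ m) (t ^ c * (1 - t) ^ b *
      ((c : ℂ) / t - (b : ℂ) / (1 - t))) t := h2.congr_of_eventuallyEq hv
  have h5 := h3.unique h4
  have h6 : v t ^ m = t ^ c * (1 - t) ^ b := hv.self_of_nhds
  have h7 : v t ≠ 0 := by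
    intro h0
    rw [h0, zero_pow hm.ne'] at h6
    exact mul_ne_zero (pow_ne_zero _ ht0) (pow_ne_zero _ ht1) h6.symm
  refine hd.hasDerivAt.congr_deriv ?_
  have h8 : v t ^ (m - 1) ≠ 0 := pow_ne_zero _ h7
  have h9 : v t ^ m = v t ^ (m - 1) * v t := by
    rw [← pow_succ]
    congr 1
    omega
  rw [← h6, h9] at h5
  have h10 : (m : ℂ) * deriv v t = v t * ((c : ℂ) / t - (b : ℂ) / (1 - t)) := by
    apply mul_left_cancel₀ h8
    linear_combination h5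
  apply mul_left_cancel₀ hm'
  rw [h10]
  field_simp

theorem hasDerivAt_Wf {m c b : ℕ} (σ : ℕ) (hm : 0 < m) {v : ℂ → ℂ} {t : ℂ} (ht0 : t ≠ 0)
    (ht1 : 1 - t ≠ 0) (hv : ∀ᶠ s in 𝓝 t, v s ^ m = s ^ c * (1 - s) ^ b)
    (hd : DifferentiableAt ℂ v t) :
    HasDerivAt (fun s => Wf m c b σ s (v s))
      (Wf m c b σ t (v t) * (fr m c σ / t - fr m b σ / (1 - t))) t := by
  have h1 : HasDerivAt (fun t : ℂ => 1 - t) (-1) t := by
    simpa using (hasDerivAt_id t).const_sub 1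
  have hv' := hasDerivAt_v hm ht0 ht1 hv hd
  have key : ∀ (n : ℕ) (f : ℂ → ℂ) (f' : ℂ), HasDerivAt f (f t * f') t →
      HasDerivAt (fun s => f s ^ n) (f t ^ n * (n * f')) t := by
    intro n f f' h
    refine (h.pow n).congr_deriv ?_
    rcases Nat.eq_zero_or_pos n with h0 | h0
    · subst h0
      simp
    · obtain ⟨k, rfl⟩ : ∃ k, n = k + 1 := ⟨n - 1, by omega⟩
      rw [Nat.add_sub_cancel, pow_succ]
      ring
  have k1 := key σ v _ hv'
  have k2 := key (σ * c / m) (fun s => s) (1 / t) (by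
    refine (hasDerivAt_id' t).congr_deriv ?_
    field_simp)
  have k3 := key (σ * b / m) (fun s => 1 - s) (-1 / (1 - t)) (by
    refine h1.congr_deriv ?_
    field_simp)
  have hne : t ^ (σ * c / m) * (1 - t) ^ (σ * b / m) ≠ 0 :=
    mul_ne_zero (pow_ne_zero _ ht0) (pow_ne_zero _ ht1)
  have k4 := k1.div (k2.mul k3) hne
  refine k4.congr_deriv ?_
  rw [fr_eq c σ hm, fr_eq b σ hm]
  unfold Wf
  simp only [Pi.mul_apply]
  field_simp
  ring

/-- the normalised integral -/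
def Al (m c b σ : ℕ) (t v : ℂ) : ℂ :=
  open Classical in
  if 1 - t ∈ slitPlane then
    P0 (fr m c σ) (fr m b σ) (Wf m c b σ t v) t / Bc (fr m c σ) (fr m b σ)
  else -(P1 (fr m c σ) (fr m b σ) (Wf m c b σ t v) t / Bc (fr m c σ) (fr m b σ))

/-- the local holomorphic function at a point `t₀` -/
def Ga (m c b σ : ℕ) (t₀ : ℂ) (t v : ℂ) : ℂ :=
  open Classical in
  if 1 - t₀ ∈ slitPlane then
    P0 (fr m c σ) (fr m b σ) (Wf m c b σ t v) t / Bc (fr m c σ) (fr m b σ)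
  else -(P1 (fr m c σ) (fr m b σ) (Wf m c b σ t v) t / Bc (fr m c σ) (fr m b σ))

/-- the root of unity `exp(2πi/m)` -/
def ze (m : ℕ) : ℂ := Complex.exp (2 * Real.pi * I / m)

theorem Wf_Om {m c b : ℕ} (hm : 0 < m) {t v : ℂ} (ht : t ∈ Om)
    (hv : v ^ m = t ^ c * (1 - t) ^ b) : ∃ a : ℕ, ∀ σ : ℕ,
    Wf m c b σ t v = ze m ^ (a * σ) * W0 (fr m c σ) (fr m b σ) t := by
  have hm' : (m : ℂ) ≠ 0 := Nat.cast_ne_zero.mpr hm.ne'
  have : NeZero m := ⟨hm.ne'⟩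
  have h0 : t ≠ 0 := slitPlane_ne_zero ht.1
  have h1t : 1 - t ≠ 0 := slitPlane_ne_zero ht.2
  set v0 : ℂ := t ^ (c / m : ℂ) * (1 - t) ^ (b / m : ℂ) with hv0
  have e0 : v0 ^ m = t ^ c * (1 - t) ^ b := by
    rw [hv0, mul_pow, ← cpow_nat_mul, ← cpow_nat_mul]
    rw [show (m : ℂ) * (c / m) = c by field_simp, show (m : ℂ) * (b / m) = b by field_simp,
      cpow_natCast, cpow_natCast]
  have hv0n : v0 ≠ 0 := by
    intro h
    rw [h, zero_pow hm.ne'] at e0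
    exact mul_ne_zero (pow_ne_zero _ h0) (pow_ne_zero _ h1t) e0.symm
  have h2 : (v / v0) ^ m = 1 := by
    rw [div_pow, e0, hv, div_self]
    exact mul_ne_zero (pow_ne_zero _ h0) (pow_ne_zero _ h1t)
  obtain ⟨a, -, ha⟩ := (Complex.isPrimitiveRoot_exp m hm.ne').eq_pow_of_pow_eq_one h2
  refine ⟨a, fun σ => ?_⟩
  have h3 : v = ze m ^ a * v0 := by
    rw [show ze m = Complex.exp (2 * Real.pi * I / m) from rfl, ha]
    field_simp
  have h4 : v0 ^ σ / (t ^ (σ * c / m) * (1 - t) ^ (σ * b / m)) =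
      W0 (fr m c σ) (fr m b σ) t := by
    unfold W0
    rw [fr_eq c σ hm, fr_eq b σ hm, cpow_sub _ _ h0, cpow_sub _ _ h1t, cpow_natCast,
      cpow_natCast, hv0, mul_pow, ← cpow_nat_mul, ← cpow_nat_mul]
    field_simp
  unfold Wf
  rw [h3, mul_pow, ← h4, ← pow_mul]
  ring

/-- `Al` is locally holomorphic up to lattice elements -/
theorem Al_sub_Ga {m c b : ℕ} (hm : 0 < m) (t₀ : ℂ) :
    ∀ᶠ t in 𝓝 t₀, ∀ v : ℂ, v ^ m = t ^ c * (1 - t) ^ b →
      (∀ σ, Al m c b σ t v = Ga m c b σ t₀ t v) ∨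
      ∃ a : ℕ, ∀ σ, ¬ m ∣ σ * c → ¬ m ∣ σ * b →
        Al m c b σ t v - Ga m c b σ t₀ t v = ze m ^ (a * σ) := by
  by_cases h : 1 - t₀ ∈ slitPlane
  · filter_upwards [isOpen_slit.mem_nhds h] with t ht v hv
    left
    intro σ
    unfold Al Ga
    rw [if_pos ht, if_pos h]
  · have h1 : t₀ ∈ slitPlane := by
      rw [mem_slitPlane_iff] at h ⊢
      push Not at h
      left
      have h2 := h.1
      simp only [sub_re, one_re] at h2
      linarith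
    filter_upwards [isOpen_slitPlane.mem_nhds h1] with t ht v hv
    by_cases h2 : 1 - t ∈ slitPlane
    · right
      obtain ⟨a, ha⟩ := Wf_Om (c := c) (b := b) hm (t := t) ⟨ht, h2⟩ hv
      refine ⟨a, fun σ hc hb => ?_⟩
      have p1 := fr_pos hm hc
      have p2 := fr_pos hm hb
      have p3 : fr m c σ < 1 := fr_lt hm
      have p4 : fr m b σ < 1 := fr_lt hm
      have h3 := sum_const p1 p3 p2 p4 (t := t) ⟨ht, h2⟩
      have h4 : Bc (fr m c σ) (fr m b σ) ≠ 0 := Bc_ne p1 p2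
      unfold Al Ga
      rw [if_pos h2, if_neg h, ha σ, P0_mul, P1_mul]
      field_simp
      rw [← h3]
      ring
    · left
      intro σ
      unfold Al Ga
      rw [if_neg h2, if_neg h]

theorem hasDerivAt_Ga {m c b σ : ℕ} (hm : 0 < m) (hc : ¬ m ∣ σ * c) (hb : ¬ m ∣ σ * b)
    {t₀ : ℂ} : ∀ᶠ t in 𝓝 t₀, ∀ v : ℂ → ℂ, t ≠ 0 → 1 - t ≠ 0 →
      (∀ᶠ s in 𝓝 t, v s ^ m = s ^ c * (1 - s) ^ b) → DifferentiableAt ℂ v t →
      HasDerivAt (fun s => Ga m c b σ t₀ s (v s))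
        (Wf m c b σ t (v t) / (t * (1 - t)) / Bc (fr m c σ) (fr m b σ)) t := by
  have p1 := fr_pos hm hc
  have p2 := fr_pos hm hb
  have p3 : fr m c σ < 1 := fr_lt hm
  have p4 : fr m b σ < 1 := fr_lt hm
  by_cases h : 1 - t₀ ∈ slitPlane
  · filter_upwards [isOpen_slit.mem_nhds h] with t ht v ht0 ht1 hv hd
    have h1 := hasDerivAt_P0 (μ := fr m c σ) (ν := fr m b σ) p1 p3 ht0 ht
      (hasDerivAt_Wf σ hm ht0 ht1 hv hd)
    have h2 : (fun s => Ga m c b σ t₀ s (v s)) = fun s =>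
        P0 (fr m c σ) (fr m b σ) (Wf m c b σ s (v s)) s / Bc (fr m c σ) (fr m b σ) := by
      funext s
      unfold Ga
      rw [if_pos h]
    rw [h2]
    exact h1.div_const _
  · have h1 : t₀ ∈ slitPlane := by
      rw [mem_slitPlane_iff] at h ⊢
      push Not at h
      left
      have h2 := h.1
      simp only [sub_re, one_re] at h2
      linarith
    filter_upwards [isOpen_slitPlane.mem_nhds h1] with t ht v ht0 ht1 hv hd
    have h3 := hasDerivAt_P1 (μ := fr m c σ) (ν := fr m b σ) p2 p4 ht ht1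
      (hasDerivAt_Wf σ hm ht0 ht1 hv hd)
    have h2 : (fun s => Ga m c b σ t₀ s (v s)) = fun s =>
        -(P1 (fr m c σ) (fr m b σ) (Wf m c b σ s (v s)) s / Bc (fr m c σ) (fr m b σ)) := by
      funext s
      unfold Ga
      rw [if_neg h]
    rw [h2]
    refine (h3.div_const _).neg.congr_deriv ?_
    ring

end SE.S4
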