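import Mathlib

/-!
# PROJECT SE, part S4: finite area

`‖t‖^(-a) ‖1-t‖^(-b)` is integrable on `ℂ` if `a, b < 2 < a + b`.
-/

set_option autoImplicit false

open MeasureTheory Set

noncomputable section

namespace SE.S4

theorem ball_int {a : ℝ} (ha : a < 2) :
    IntegrableOn (fun t : ℂ => ‖t‖ ^ (-a)) (Metric.ball 0 (1 / 2)) volume := by
  have h2 : Module.finrank ℝ ℂ = 2 := Complex.finrank_real_complex
  refine integrableOn_ball_of_norm_le_rpow (E := ℂ) (μ := volume) (C := 1) (α := a)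
    (by rw [h2]; norm_num) (by rw [h2]; exact_mod_cast ha) ?_ ?_
  · filter_upwards with t
    rw [one_mul, Real.norm_of_nonneg (Real.rpow_nonneg (norm_nonneg t) _)]
  · apply Measurable.aestronglyMeasurable
    fun_prop

theorem ball_int1 {b : ℝ} (hb : b < 2) :
    IntegrableOn (fun t : ℂ => ‖1 - t‖ ^ (-b)) (Metric.ball 1 (1 / 2)) volume := by
  have h := ball_int hb
  have hmp : MeasurePreserving (fun t : ℂ => 1 - t) volume volume :=
    Measure.measurePreserving_sub_left volume 1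
  have he : MeasurableEmbedding (fun t : ℂ => 1 - t) :=
    (MeasurableEquiv.subLeft (1 : ℂ)).measurableEmbedding
  have h1 := (hmp.integrableOn_comp_preimage he).mpr h
  have h3 : (fun t : ℂ => 1 - t) ⁻¹' Metric.ball 0 (1 / 2) = Metric.ball 1 (1 / 2) := by
    ext t
    rw [mem_preimage, mem_ball_zero_iff, Metric.mem_ball, dist_comm, dist_eq_norm]
  rw [h3] at h1
  exact h1

theorem integrable_beta {a b : ℝ} (ha0 : 0 ≤ a) (hb0 : 0 ≤ b) (ha : a < 2) (hb : b < 2)
    (hab : 2 < a + b) : Integrable (fun t : ℂ => ‖t‖ ^ (-a) * ‖1 - t‖ ^ (-b)) volume := by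
  have h2 : Module.finrank ℝ ℂ = 2 := Complex.finrank_real_complex
  have i0 := (integrable_indicator_iff Metric.isOpen_ball.measurableSet).mpr (ball_int ha)
  have i1 := (integrable_indicator_iff Metric.isOpen_ball.measurableSet).mpr (ball_int1 hb)
  have i2 : Integrable (fun t : ℂ => (1 + ‖t‖) ^ (-(a + b))) volume :=
    integrable_one_add_norm (by rw [h2]; exact_mod_cast hab)
  refine (((i0.const_mul (2 ^ b)).add (i1.const_mul (2 ^ a))).add
    (i2.const_mul (3 ^ a * 5 ^ b))).mono' ?_ ?_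
  · apply Measurable.aestronglyMeasurable
    fun_prop
  · filter_upwards with t
    have n0 := norm_nonneg t
    have n1 := norm_nonneg (1 - t)
    rw [Real.norm_of_nonneg (mul_nonneg (Real.rpow_nonneg n0 _) (Real.rpow_nonneg n1 _))]
    simp only [Pi.add_apply]
    have tri : (1 : ℝ) ≤ ‖t‖ + ‖1 - t‖ := by
      have := norm_add_le t (1 - t)
      rw [add_sub_cancel, norm_one] at this
      exact this
    have tri2 : ‖t‖ ≤ 1 + ‖1 - t‖ := by
      have := norm_sub_le (1 : ℂ) (1 - t)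
      rw [sub_sub_cancel, norm_one] at this
      exact this
    have q2 : 0 ≤ 3 ^ a * 5 ^ b * (1 + ‖t‖) ^ (-(a + b)) := by positivity
    have q0 : 0 ≤ (2 : ℝ) ^ b *
        (Metric.ball (0 : ℂ) (1 / 2)).indicator (fun t : ℂ => ‖t‖ ^ (-a)) t := by
      apply mul_nonneg (by positivity)
      exact indicator_nonneg (fun _ _ => Real.rpow_nonneg (norm_nonneg _) _) _
    have q1 : 0 ≤ (2 : ℝ) ^ a *
        (Metric.ball (1 : ℂ) (1 / 2)).indicator (fun t : ℂ => ‖1 - t‖ ^ (-b)) t := by
      apply mul_nonneg (by positivity)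
      exact indicator_nonneg (fun _ _ => Real.rpow_nonneg (norm_nonneg _) _) _
    have key : ∀ {x y c : ℝ}, 0 ≤ c → 0 < y → y ≤ x → x ^ (-c) ≤ y ^ (-c) := by
      intro x y c hc hy hxy
      exact Real.rpow_le_rpow_of_nonpos hy hxy (by linarith)
    have half : ∀ c : ℝ, (1 / 2 : ℝ) ^ (-c) = 2 ^ c := by
      intro c
      rw [Real.rpow_neg (by norm_num), one_div, Real.inv_rpow (by norm_num), inv_inv]
    by_cases h0 : ‖t‖ < 1 / 2
    · have e : (Metric.ball (0 : ℂ) (1 / 2)).indicator (fun t : ℂ => ‖t‖ ^ (-a)) t =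
          ‖t‖ ^ (-a) := indicator_of_mem (mem_ball_zero_iff.mpr h0) _
      have h3 : ‖1 - t‖ ^ (-b) ≤ 2 ^ b := by
        rw [← half b]
        exact key hb0 (by norm_num) (by linarith)
      have h4 : ‖t‖ ^ (-a) * ‖1 - t‖ ^ (-b) ≤ 2 ^ b * ‖t‖ ^ (-a) := by
        rw [mul_comm]
        exact mul_le_mul_of_nonneg_right h3 (Real.rpow_nonneg n0 _)
      rw [e]
      linarith
    · by_cases h1 : ‖1 - t‖ < 1 / 2
      · have e : (Metric.ball (1 : ℂ) (1 / 2)).indicator (fun t : ℂ => ‖1 - t‖ ^ (-b)) t =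
            ‖1 - t‖ ^ (-b) := by
          apply indicator_of_mem
          rw [Metric.mem_ball, dist_comm, dist_eq_norm]
          exact h1
        have h3 : ‖t‖ ^ (-a) ≤ 2 ^ a := by
          rw [← half a]
          exact key ha0 (by norm_num) (by linarith)
        have h4 : ‖t‖ ^ (-a) * ‖1 - t‖ ^ (-b) ≤ 2 ^ a * ‖1 - t‖ ^ (-b) :=
          mul_le_mul_of_nonneg_right h3 (Real.rpow_nonneg n1 _)
        rw [e]
        linarith
      · push Not at h0 h1
        have p : 0 < 1 + ‖t‖ := by positivity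
        have h3 : ‖t‖ ^ (-a) ≤ 3 ^ a * (1 + ‖t‖) ^ (-a) := by
          have h5 : (1 + ‖t‖) / 3 ≤ ‖t‖ := by linarith
          have h6 := key ha0 (by positivity) h5
          rw [Real.div_rpow p.le (by norm_num), Real.rpow_neg (by norm_num : (0 : ℝ) ≤ 3),
            div_inv_eq_mul, mul_comm] at h6
          exact h6
        have h4 : ‖1 - t‖ ^ (-b) ≤ 5 ^ b * (1 + ‖t‖) ^ (-b) := by
          have h5 : (1 + ‖t‖) / 5 ≤ ‖1 - t‖ := by linarith
          have h6 := key hb0 (by positivity) h5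
          rw [Real.div_rpow p.le (by norm_num), Real.rpow_neg (by norm_num : (0 : ℝ) ≤ 5),
            div_inv_eq_mul, mul_comm] at h6
          exact h6
        have h7 := mul_le_mul h3 h4 (Real.rpow_nonneg n1 _) (by positivity)
        have h8 : 3 ^ a * (1 + ‖t‖) ^ (-a) * (5 ^ b * (1 + ‖t‖) ^ (-b)) =
            3 ^ a * 5 ^ b * (1 + ‖t‖) ^ (-(a + b)) := by
          rw [neg_add, Real.rpow_add p]
          ring
        rw [h8] at h7
        linarith

end SE.S4
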