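import Pool.Agent.Lib.SE.S4.Ty

/-!
# PROJECT SE, part S4: the points of `v^m = t^c (1-t)^d` over `t`, and local branches
-/

set_option autoImplicit false

open MeasureTheory Complex Set Filter Topology

noncomputable section

namespace SE.S4

/-- the principal root -/
def v0 (m c d : ℕ) (x : ℂ) : ℂ := x ^ (c / m : ℂ) * (1 - x) ^ (d / m : ℂ)

theorem v0_pow {m c d : ℕ} (hm : 0 < m) {x : ℂ} : v0 m c d x ^ m = x ^ c * (1 - x) ^ d := by
  have hm' : (m : ℂ) ≠ 0 := Nat.cast_ne_zero.mpr hm.ne'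
  unfold v0
  rw [mul_pow, ← cpow_nat_mul, ← cpow_nat_mul]
  rw [show (m : ℂ) * (c / m) = c by field_simp, show (m : ℂ) * (d / m) = d by field_simp,
    cpow_natCast, cpow_natCast]

theorem h_ne {c d : ℕ} {x : ℂ} (h0 : x ≠ 0) (h1 : 1 - x ≠ 0) : x ^ c * (1 - x) ^ d ≠ 0 :=
  mul_ne_zero (pow_ne_zero _ h0) (pow_ne_zero _ h1)

theorem v0_ne {m c d : ℕ} (hm : 0 < m) {x : ℂ} (h0 : x ≠ 0) (h1 : 1 - x ≠ 0) :
    v0 m c d x ≠ 0 := by
  intro h
  have h2 := v0_pow (c := c) (d := d) hm (x := x)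
  rw [h, zero_pow hm.ne'] at h2
  exact h_ne h0 h1 h2.symm

theorem roots_eq {m c d : ℕ} (hm : 0 < m) {x : ℂ} (h0 : x ≠ 0) (h1 : 1 - x ≠ 0) :
    {y : ℂ | y ^ m - x ^ c * (1 - x) ^ d = 0} =
      range fun a : Fin m => ze m ^ (a : ℕ) * v0 m c d x := by
  have : NeZero m := ⟨hm.ne'⟩
  ext y
  rw [mem_ofPred_eq, mem_range, sub_eq_zero]
  constructor
  · intro hy
    have h2 : (y / v0 m c d x) ^ m = 1 := by
      rw [div_pow, v0_pow hm, hy, div_self (h_ne h0 h1)]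
    obtain ⟨a, ha, ha2⟩ := (ze_prim hm).eq_pow_of_pow_eq_one h2
    refine ⟨⟨a, ha⟩, ?_⟩
    show ze m ^ a * v0 m c d x = y
    rw [ha2]
    field_simp [v0_ne hm h0 h1]
  · rintro ⟨a, rfl⟩
    rw [mul_pow, v0_pow hm, ← pow_mul, mul_comm (a : ℕ) m, pow_mul, (ze_prim hm).pow_eq_one,
      one_pow, one_mul]

theorem roots_inj {m c d : ℕ} (hm : 0 < m) {x : ℂ} (h0 : x ≠ 0) (h1 : 1 - x ≠ 0) :
    Function.Injective fun a : Fin m => ze m ^ (a : ℕ) * v0 m c d x := by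
  intro a b hab
  have h2 : ze m ^ (a : ℕ) = ze m ^ (b : ℕ) := mul_right_cancel₀ (v0_ne hm h0 h1) hab
  exact Fin.ext ((ze_prim hm).pow_inj a.2 b.2 h2)

theorem finsum_roots {m c d : ℕ} (hm : 0 < m) {x : ℂ} (h0 : x ≠ 0) (h1 : 1 - x ≠ 0)
    (f : ℂ → ℝ) : ∑ᶠ y ∈ {y : ℂ | y ^ m - x ^ c * (1 - x) ^ d = 0}, f y =
      ∑ a : Fin m, f (ze m ^ (a : ℕ) * v0 m c d x) := by
  rw [roots_eq hm h0 h1, finsum_mem_range (roots_inj hm h0 h1), finsum_eq_sum_of_fintype]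

theorem contOn_v0 (m c d : ℕ) : ContinuousOn (v0 m c d) Om := by
  intro x hx
  have h1 : ContinuousAt (fun x : ℂ => 1 - x) x := (continuous_const.sub continuous_id).continuousAt
  exact ((continuousAt_id.cpow continuousAt_const hx.1).mul
    (h1.cpow continuousAt_const hx.2)).continuousWithinAt

theorem contOn_Wf (m c d σ a : ℕ) :
    ContinuousOn (fun x => Wf m c d σ x (ze m ^ a * v0 m c d x)) Om := by
  unfold Wf
  refine ContinuousOn.div ((continuousOn_const.mul (contOn_v0 m c d)).pow σ) ?_ ?_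
  · fun_prop
  · intro x hx
    exact h_ne (slitPlane_ne_zero hx.1) (slitPlane_ne_zero hx.2)

theorem ae_Om : ∀ᵐ x : ℂ, x ∈ Om := by
  have h1 : volume ((LinearMap.ker Complex.imLm : Submodule ℝ ℂ) : Set ℂ) = 0 := by
    apply Measure.addHaar_submodule
    intro h
    have : Complex.I ∈ LinearMap.ker Complex.imLm := by
      rw [h]
      trivial
    simp at this
  have h2 : ∀ᵐ x : ℂ, x ∉ ((LinearMap.ker Complex.imLm : Submodule ℝ ℂ) : Set ℂ) := by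
    exact measure_eq_zero_iff_ae_notMem.mp h1
  filter_upwards [h2] with x hx
  have h3 : x.im ≠ 0 := by
    intro h
    apply hx
    simp [h]
  refine ⟨?_, ?_⟩
  · rw [mem_slitPlane_iff]
    right
    exact h3
  · rw [mem_slitPlane_iff]
    right
    simpa using h3

/-- a local branch of the curve at the point `(x₀, y₀)` -/
def eta (m c d : ℕ) (x₀ y₀ x : ℂ) : ℂ :=
  y₀ * ((x ^ c * (1 - x) ^ d) / (x₀ ^ c * (1 - x₀) ^ d)) ^ ((m : ℂ)⁻¹)

theorem eta_pow {m c d : ℕ} (hm : 0 < m) {x₀ y₀ : ℂ} (h0 : x₀ ≠ 0) (h1 : 1 - x₀ ≠ 0)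
    (hy : y₀ ^ m = x₀ ^ c * (1 - x₀) ^ d) (x : ℂ) :
    eta m c d x₀ y₀ x ^ m = x ^ c * (1 - x) ^ d := by
  unfold eta
  rw [mul_pow, Complex.cpow_nat_inv_pow _ hm.ne', hy]
  field_simp [h_ne h0 h1 (c := c) (d := d)]

theorem eta_self {m c d : ℕ} {x₀ y₀ : ℂ} (h0 : x₀ ≠ 0) (h1 : 1 - x₀ ≠ 0) :
    eta m c d x₀ y₀ x₀ = y₀ := by
  unfold eta
  rw [div_self (h_ne h0 h1), one_cpow, mul_one]

theorem eta_diff {m c d : ℕ} {x₀ y₀ : ℂ} (h0 : x₀ ≠ 0) (h1 : 1 - x₀ ≠ 0) :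
    ∀ᶠ x in 𝓝 x₀, DifferentiableAt ℂ (eta m c d x₀ y₀) x := by
  have h2 : Continuous fun x : ℂ => (x ^ c * (1 - x) ^ d) / (x₀ ^ c * (1 - x₀) ^ d) := by
    fun_prop
  have h3 : (x₀ ^ c * (1 - x₀) ^ d) / (x₀ ^ c * (1 - x₀) ^ d) ∈ slitPlane := by
    rw [div_self (h_ne h0 h1)]
    exact one_mem_slitPlane
  filter_upwards [h2.continuousAt.preimage_mem_nhds (isOpen_slitPlane.mem_nhds h3)] with x hx
  have h4 : DifferentiableAt ℂ (fun x : ℂ => (x ^ c * (1 - x) ^ d) / (x₀ ^ c * (1 - x₀) ^ d)) x := by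
    fun_prop
  exact (h4.cpow_const hx).const_mul y₀

end SE.S4
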