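import Pool.Agent.Lib.SE.Iface
import Pool.Agent.Lib.SE.S4.Rt
import Pool.Agent.Lib.SE.S4.Ar

/-!
# PROJECT SE, part S4 (G3): the curve `y^m = x^c (1-x)^d` with its map to `ℂ^Φ / Φ(O_E)`
-/

set_option autoImplicit false

open MeasureTheory Complex Set Filter Topology

noncomputable section

namespace HC.SE

open _root_.SE _root_.SE.S4

theorem isPoly_crv (m c d : ℕ) : IsPoly fun p : ℂ × ℂ => p.2 ^ m - p.1 ^ c * (1 - p.1) ^ d := by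
  have h1 : (fun p : ℂ × ℂ => p.1) ∈ Algebra.adjoin ℂ
      (range fun (l : ℂ × ℂ →ₗ[ℂ] ℂ) (v : ℂ × ℂ) => l v) :=
    Algebra.subset_adjoin ⟨LinearMap.fst ℂ ℂ ℂ, rfl⟩
  have h2 : (fun p : ℂ × ℂ => p.2) ∈ Algebra.adjoin ℂ
      (range fun (l : ℂ × ℂ →ₗ[ℂ] ℂ) (v : ℂ × ℂ) => l v) :=
    Algebra.subset_adjoin ⟨LinearMap.snd ℂ ℂ ℂ, rfl⟩
  exact sub_mem (pow_mem h2 m) (mul_mem (pow_mem h1 c) (pow_mem (sub_mem (one_mem _) h1) d))

variable {E : Type} [Field E] [NumberField E] {ζ : E} {m c d : ℕ}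

/-- the values of the integrals -/
def alv (T : Cm1 E (Ph m ζ c d)) (x y : ℂ) : T.T.V :=
  T.ψ.symm fun φ => Al m c d (sg m ζ φ.1) x y

/-- the derivative -/
def omv (T : Cm1 E (Ph m ζ c d)) (x y : ℂ) : T.T.V :=
  T.ψ.symm fun φ => Wf m c d (sg m ζ φ.1) x y / (x * (1 - x)) /
    Bc (fr m c (sg m ζ φ.1)) (fr m d (sg m ζ φ.1))

/-- the local lift -/
def gav (T : Cm1 E (Ph m ζ c d)) (x₀ : ℂ) (x y : ℂ) : T.T.V :=
  T.ψ.symm fun φ => Ga m c d (sg m ζ φ.1) x₀ x y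

theorem map_crv (hm : 3 ≤ m) (hc : ¬ m ∣ c) (hd : ¬ m ∣ d) (hζ : IsPrimitiveRoot ζ m)
    (T : Cm1 E (Ph m ζ c d)) {x₀ y₀ : ℂ} (h0 : x₀ ≠ 0) (h1 : 1 - x₀ ≠ 0)
    (hy : y₀ ^ m = x₀ ^ c * (1 - x₀) ^ d) :
    ∃ (η : ℂ → ℂ) (g : ℂ → T.T.V), η x₀ = y₀ ∧ ContinuousAt η x₀ ∧ ∀ᶠ x in 𝓝 x₀,
      η x ^ m - x ^ c * (1 - x) ^ d = 0 ∧ alv T x (η x) - g x ∈ T.T.L ∧
        HasDerivAt g (omv T x (η x)) x := by
  have hm0 : 0 < m := by omega
  have hfin : Finite (Ph m ζ c d) := Subtype.finite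
  have hfin' : Fintype (Ph m ζ c d) := Fintype.ofFinite _
  have hcs : ∀ φ : Ph m ζ c d, ¬ m ∣ sg m ζ φ.1 * c := fun φ =>
    not_dvd_mul (sg_coprime hm0 hζ φ.1) hc
  have hds : ∀ φ : Ph m ζ c d, ¬ m ∣ sg m ζ φ.1 * d := fun φ =>
    not_dvd_mul (sg_coprime hm0 hζ φ.1) hd
  refine ⟨eta m c d x₀ y₀, fun x => gav T x₀ x (eta m c d x₀ y₀ x), eta_self h0 h1,
    (eta_diff h0 h1).self_of_nhds.continuousAt, ?_⟩
  have e1 : ∀ᶠ x in 𝓝 x₀, x ≠ 0 := isOpen_ne.mem_nhds h0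
  have e2 : ∀ᶠ x in 𝓝 x₀, 1 - x ≠ 0 :=
    (isOpen_ne.preimage (continuous_const.sub continuous_id : Continuous fun x : ℂ => 1 - x)).mem_nhds
      h1
  have e3 : ∀ᶠ x in 𝓝 x₀, ∀ φ : Ph m ζ c d, ∀ v : ℂ → ℂ, x ≠ 0 → 1 - x ≠ 0 →
      (∀ᶠ s in 𝓝 x, v s ^ m = s ^ c * (1 - s) ^ d) → DifferentiableAt ℂ v x →
      HasDerivAt (fun s => Ga m c d (sg m ζ φ.1) x₀ s (v s))
        (Wf m c d (sg m ζ φ.1) x (v x) / (x * (1 - x)) /
          Bc (fr m c (sg m ζ φ.1)) (fr m d (sg m ζ φ.1))) x :=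
    Filter.eventually_all.mpr fun φ => hasDerivAt_Ga hm0 (hcs φ) (hds φ)
  have e4 := Al_sub_Ga (m := m) (c := c) (b := d) hm0 x₀
  have e5 := eta_diff (m := m) (c := c) (d := d) (y₀ := y₀) h0 h1
  filter_upwards [e1, e2, e3, e4, e5] with x hx0 hx1 hG hA hη
  have hp : ∀ s, eta m c d x₀ y₀ s ^ m = s ^ c * (1 - s) ^ d := fun s => eta_pow hm0 h0 h1 hy s
  refine ⟨sub_eq_zero.mpr (hp x), ?_, ?_⟩
  · rw [T.lat]
    rcases hA (eta m c d x₀ y₀ x) (hp x) with h | ⟨a, h⟩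
    · refine ⟨0, isIntegral_zero, fun φ => ?_⟩
      unfold alv gav
      rw [map_sub, LinearEquiv.apply_symm_apply, LinearEquiv.apply_symm_apply, Pi.sub_apply, h,
        sub_self, map_zero]
    · refine ⟨ζ ^ a, (hζ.isIntegral hm0).pow a, fun φ => ?_⟩
      unfold alv gav
      rw [map_sub, LinearEquiv.apply_symm_apply, LinearEquiv.apply_symm_apply, Pi.sub_apply,
        h _ (hcs φ) (hds φ), map_pow, ← (sg_spec hm0 hζ φ.1).2, ← pow_mul, mul_comm]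
  · have h2 : HasDerivAt (fun x => fun φ : Ph m ζ c d =>
        Ga m c d (sg m ζ φ.1) x₀ x (eta m c d x₀ y₀ x))
        (fun φ => Wf m c d (sg m ζ φ.1) x (eta m c d x₀ y₀ x) / (x * (1 - x)) /
          Bc (fr m c (sg m ζ φ.1)) (fr m d (sg m ζ φ.1))) x := by
      rw [hasDerivAt_pi]
      intro φ
      exact hG φ _ hx0 hx1 (Eventually.of_forall hp) hη
    have h3 := (T.ψ.symm.toContinuousLinearEquiv : ((Ph m ζ c d) → ℂ) ≃L[ℂ] T.T.V).hasFDerivAt.comp_hasDerivAt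
      x h2
    exact h3

theorem area_crv (hm : 3 ≤ m) (hc : ¬ m ∣ c) (hd : ¬ m ∣ d) (hζ : IsPrimitiveRoot ζ m)
    (T : Cm1 E (Ph m ζ c d)) :
    Integrable fun x => ∑ᶠ y ∈ {y : ℂ | y ^ m - x ^ c * (1 - x) ^ d = 0}, ‖omv T x y‖ ^ 2 := by
  have hm0 : 0 < m := by omega
  have hfin' : Fintype (Ph m ζ c d) := Fintype.ofFinite _
  have hcs : ∀ φ : Ph m ζ c d, ¬ m ∣ sg m ζ φ.1 * c := fun φ =>
    not_dvd_mul (sg_coprime hm0 hζ φ.1) hc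
  have hds : ∀ φ : Ph m ζ c d, ¬ m ∣ sg m ζ φ.1 * d := fun φ =>
    not_dvd_mul (sg_coprime hm0 hζ φ.1) hd
  let L : ((Ph m ζ c d) → ℂ) →L[ℂ] T.T.V := LinearMap.toContinuousLinearMap T.ψ.symm.toLinearMap
  let G : ℂ → ℝ := fun x => ∑ a : Fin m, ‖omv T x (ze m ^ (a : ℕ) * v0 m c d x)‖ ^ 2
  have hG : (fun x => ∑ᶠ y ∈ {y : ℂ | y ^ m - x ^ c * (1 - x) ^ d = 0}, ‖omv T x y‖ ^ 2) =ᵐ[volume]
      G := by
    filter_upwards [ae_Om] with x hx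
    exact finsum_roots hm0 (slitPlane_ne_zero hx.1) (slitPlane_ne_zero hx.2) _
  refine Integrable.congr ?_ hG.symm
  have hcont : ContinuousOn G Om := by
    refine continuousOn_finsetSum _ fun a _ => ?_
    refine ContinuousOn.pow (ContinuousOn.norm ?_) 2
    have h1 : ContinuousOn (fun x => fun φ : Ph m ζ c d => Wf m c d (sg m ζ φ.1) x
        (ze m ^ (a : ℕ) * v0 m c d x) / (x * (1 - x)) /
          Bc (fr m c (sg m ζ φ.1)) (fr m d (sg m ζ φ.1))) Om := by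
      refine continuousOn_pi.mpr fun φ => ?_
      refine ContinuousOn.div_const (ContinuousOn.div (contOn_Wf m c d _ _) (by fun_prop) ?_) _
      intro x hx
      exact mul_ne_zero (slitPlane_ne_zero hx.1) (slitPlane_ne_zero hx.2)
    exact L.continuous.comp_continuousOn h1
  have hmeas : AEStronglyMeasurable G volume := by
    have h1 := hcont.aestronglyMeasurable isOpen_Om.measurableSet (μ := volume)
    rwa [Measure.restrict_eq_self_of_ae_mem ae_Om] at h1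
  have hb : Integrable fun x : ℂ => ∑ _a : Fin m, ∑ φ : Ph m ζ c d, (‖L‖ ^ 2 /
      ‖Bc (fr m c (sg m ζ φ.1)) (fr m d (sg m ζ φ.1))‖ ^ 2) *
      (‖x‖ ^ (-(2 - 2 * fr m c (sg m ζ φ.1))) * ‖1 - x‖ ^ (-(2 - 2 * fr m d (sg m ζ φ.1)))) := by
    refine integrable_finsetSum _ fun a _ => integrable_finsetSum _ fun φ _ => ?_
    refine Integrable.const_mul ?_ _
    have p1 := fr_pos hm0 (hcs φ)
    have p2 := fr_pos hm0 (hds φ)
    have p3 : fr m c (sg m ζ φ.1) < 1 := fr_lt hm0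
    have p4 : fr m d (sg m ζ φ.1) < 1 := fr_lt hm0
    have p5 : fr m c (sg m ζ φ.1) + fr m d (sg m ζ φ.1) < 1 := φ.2
    exact integrable_beta (by linarith) (by linarith) (by linarith) (by linarith) (by linarith)
  refine hb.mono' hmeas ?_
  filter_upwards [ae_Om] with x hx
  have hx0 := slitPlane_ne_zero hx.1
  have hx1 := slitPlane_ne_zero hx.2
  have n0 : 0 < ‖x‖ := norm_pos_iff.mpr hx0
  have n1 : 0 < ‖1 - x‖ := norm_pos_iff.mpr hx1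
  rw [Real.norm_of_nonneg (Finset.sum_nonneg fun a _ => by positivity)]
  refine Finset.sum_le_sum fun a _ => ?_
  set y := ze m ^ (a : ℕ) * v0 m c d x with hy
  have hyp : y ^ m = x ^ c * (1 - x) ^ d := by
    rw [hy, mul_pow, v0_pow hm0, ← pow_mul, mul_comm (a : ℕ) m, pow_mul,
      (ze_prim hm0).pow_eq_one, one_pow, one_mul]
  set F : (Ph m ζ c d) → ℂ := fun φ => Wf m c d (sg m ζ φ.1) x y / (x * (1 - x)) /
    Bc (fr m c (sg m ζ φ.1)) (fr m d (sg m ζ φ.1)) with hF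
  have h1 : ‖omv T x y‖ ≤ ‖L‖ * ‖F‖ := L.le_opNorm F
  have h2 : ‖F‖ ^ 2 ≤ ∑ φ, ‖F φ‖ ^ 2 := by
    rcases isEmpty_or_nonempty (Ph m ζ c d) with he | he
    · have : F = 0 := Subsingleton.elim _ _
      rw [this, norm_zero]
      simp
    · obtain ⟨φ, hφ⟩ : ∃ φ, ‖F φ‖ = ‖F‖ := by
        obtain ⟨φ, -, hφ⟩ := Finset.exists_mem_eq_sup' Finset.univ_nonempty fun φ => ‖F φ‖
        refine ⟨φ, le_antisymm (norm_le_pi_norm F φ) ?_⟩
        rw [pi_norm_le_iff_of_nonneg (norm_nonneg _)]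
        intro ψ
        rw [← hφ]
        exact Finset.le_sup' (fun φ => ‖F φ‖) (Finset.mem_univ ψ)
      rw [← hφ]
      exact Finset.single_le_sum (f := fun φ => ‖F φ‖ ^ 2) (fun _ _ => by positivity)
        (Finset.mem_univ φ)
  have h3 : ‖omv T x y‖ ^ 2 ≤ ‖L‖ ^ 2 * ∑ φ, ‖F φ‖ ^ 2 := by
    calc ‖omv T x y‖ ^ 2 ≤ (‖L‖ * ‖F‖) ^ 2 := by gcongr
      _ = ‖L‖ ^ 2 * ‖F‖ ^ 2 := by ring
      _ ≤ _ := by gcongr
  refine h3.trans (le_of_eq ?_)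
  rw [Finset.mul_sum]
  refine Finset.sum_congr rfl fun φ _ => ?_
  have e : ∀ (n : ℝ) (μ : ℝ), 0 < n → (n ^ μ) ^ 2 / n ^ 2 = n ^ (-(2 - 2 * μ)) := by
    intro n μ hn
    rw [← Real.rpow_natCast (n ^ μ) 2, ← Real.rpow_mul hn.le, ← Real.rpow_natCast n 2,
      ← Real.rpow_sub hn]
    congr 1
    push_cast
    ring
  rw [hF]
  simp only
  rw [norm_div, norm_div, norm_mul, norm_Wf hm0 hx0 hx1 hyp, ← e ‖x‖ _ n0, ← e ‖1 - x‖ _ n1]
  field_simp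

theorem s_crv : S_crv := by
  intro m c d hm hc hd _ E _ _ _ ζ hζ T
  have hm0 : 0 < m := by omega
  refine ⟨{
    P := fun p => p.2 ^ m - p.1 ^ c * (1 - p.1) ^ d
    S := {0, 1}
    α := alv T
    ω := omv T
    poly := isPoly_crv m c d
    fin := by simp
    et := ?_
    map := ?_
    area := area_crv hm hc hd hζ T }, fun _ _ => rfl, rfl, ?_⟩
  · intro x hx y hy
    have hx' : x ≠ 0 ∧ x ≠ 1 := by simpa using hx
    have h1 : 1 - x ≠ 0 := sub_ne_zero.mpr hx'.2.symm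
    have h2 : y ^ m = x ^ c * (1 - x) ^ d := sub_eq_zero.mp hy
    have h3 : y ≠ 0 := by
      rintro rfl
      rw [zero_pow hm0.ne'] at h2
      exact h_ne hx'.1 h1 h2.symm
    have h4 : HasDerivAt (fun y : ℂ => y ^ m - x ^ c * (1 - x) ^ d) (m * y ^ (m - 1)) y :=
      (hasDerivAt_pow m y).sub_const _
    show deriv (fun y : ℂ => y ^ m - x ^ c * (1 - x) ^ d) y ≠ 0
    rw [h4.deriv]
    exact mul_ne_zero (Nat.cast_ne_zero.mpr hm0.ne') (pow_ne_zero _ h3)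
  · intro x₀ hx y₀ hy
    have hx' : x₀ ≠ 0 ∧ x₀ ≠ 1 := by simpa using hx
    exact map_crv hm hc hd hζ T hx'.1 (sub_ne_zero.mpr hx'.2.symm) (sub_eq_zero.mp hy)
  · intro φ
    have p1 := fr_pos hm0 (not_dvd_mul (sg_coprime hm0 hζ φ.1) hc)
    have p2 := fr_pos hm0 (not_dvd_mul (sg_coprime hm0 hζ φ.1) hd)
    refine ⟨(Bc (fr m c (sg m ζ φ.1)) (fr m d (sg m ζ φ.1)))⁻¹, inv_ne_zero (Bc_ne p1 p2), ?_⟩
    intro x _ y _
    show T.ψ (omv T x y) φ = _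
    unfold omv
    rw [LinearEquiv.apply_symm_apply]
    ring

end HC.SE
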