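import Pool.Agent.Lib.SE.S4.Cv
import Pool.Agent.Lib.HC.Defs

/-!
# PROJECT SE, part S4: the CM type of the curve `v^m = t^c (1-t)^b`
-/

set_option autoImplicit false

open Complex Set
open scoped ComplexConjugate

noncomputable section

namespace SE.S4

section
variable {m : ℕ} {E : Type} [Field E] {ζ : E}

theorem ze_prim (hm : 0 < m) : IsPrimitiveRoot (ze m) m := Complex.isPrimitiveRoot_exp m hm.ne'

theorem exists_sg (hm : 0 < m) (hζ : IsPrimitiveRoot ζ m) (φ : E →+* ℂ) :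
    ∃ s : ℕ, s < m ∧ ze m ^ s = φ ζ := by
  have : NeZero m := ⟨hm.ne'⟩
  have h : (φ ζ) ^ m = 1 := by
    rw [← map_pow, hζ.pow_eq_one, map_one]
  exact (ze_prim hm).eq_pow_of_pow_eq_one h

open Classical in
/-- the exponent `s` with `φ ζ = exp(2πi/m)^s`, `s < m` -/
def sg (m : ℕ) (ζ : E) (φ : E →+* ℂ) : ℕ :=
  if h : ∃ s : ℕ, s < m ∧ ze m ^ s = φ ζ then h.choose else 0

theorem sg_spec (hm : 0 < m) (hζ : IsPrimitiveRoot ζ m) (φ : E →+* ℂ) :
    sg m ζ φ < m ∧ ze m ^ sg m ζ φ = φ ζ := by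
  have h := exists_sg hm hζ φ
  unfold sg
  rw [dif_pos h]
  exact h.choose_spec

theorem sg_coprime (hm : 0 < m) (hζ : IsPrimitiveRoot ζ m) (φ : E →+* ℂ) :
    (sg m ζ φ).Coprime m := by
  have h1 : IsPrimitiveRoot (φ ζ) m := hζ.map_of_injective φ.injective
  rw [← (sg_spec hm hζ φ).2] at h1
  exact ((ze_prim hm).pow_iff_coprime hm _).mp h1

theorem sg_pos (hm : 1 < m) (hζ : IsPrimitiveRoot ζ m) (φ : E →+* ℂ) : 0 < sg m ζ φ := by
  rcases Nat.eq_zero_or_pos (sg m ζ φ) with h | h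
  · have h1 := sg_coprime (by omega) hζ φ
    rw [h, Nat.coprime_zero_left] at h1
    omega
  · exact h

theorem conj_ze (m : ℕ) : conj (ze m) = (ze m)⁻¹ := by
  unfold ze
  rw [← Complex.exp_conj, ← Complex.exp_neg]
  congr 1
  simp only [map_div₀, map_mul, conj_ofReal, conj_I, map_natCast, Complex.conj_ofNat]
  ring

theorem sg_conj (hm : 1 < m) (hζ : IsPrimitiveRoot ζ m) (φ : E →+* ℂ) :
    sg m ζ (NumberField.ComplexEmbedding.conjugate φ) = m - sg m ζ φ := by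
  have h1 := sg_spec (by omega) hζ φ
  have h2 := sg_spec (by omega) hζ (NumberField.ComplexEmbedding.conjugate φ)
  have h3 := sg_pos hm hζ φ
  have hp := ze_prim (m := m) (by omega)
  apply hp.pow_inj h2.1 (by omega)
  rw [h2.2, NumberField.ComplexEmbedding.conjugate_coe_eq, ← h1.2, map_pow, conj_ze]
  have h4 : ze m ^ (m - sg m ζ φ) * ze m ^ sg m ζ φ = 1 := by
    rw [← pow_add, Nat.sub_add_cancel h1.1.le, hp.pow_eq_one]
  rw [inv_pow]
  exact (eq_inv_of_mul_eq_one_left h4).symm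

theorem mod_compl {c s : ℕ} (hm : 0 < m) (hs : s ≤ m) (h : ¬ m ∣ s * c) :
    (m - s) * c % m + s * c % m = m := by
  have h1 : (m - s) * c + s * c = m * c := by
    rw [← add_mul, Nat.sub_add_cancel hs]
  have h2 : ((m - s) * c % m + s * c % m) % m = 0 := by
    rw [← Nat.add_mod, h1, Nat.mul_mod_right]
  have h3 : (m - s) * c % m < m := Nat.mod_lt _ hm
  have h4 : s * c % m < m := Nat.mod_lt _ hm
  have h5 : 0 < s * c % m := Nat.pos_of_ne_zero (fun h0 => h (Nat.dvd_of_mod_eq_zero h0))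
  obtain ⟨q, hq⟩ := Nat.dvd_of_mod_eq_zero h2
  have h6 : 0 < q := by
    rcases Nat.eq_zero_or_pos q with h0 | h0
    · rw [h0] at hq
      omega
    · exact h0
  have h7 : q < 2 := by
    by_contra h8
    have : m * 2 ≤ m * q := Nat.mul_le_mul_left m (by omega)
    omega
  have h9 : q = 1 := by omega
  rw [hq, h9, mul_one]

theorem fr_compl {c s : ℕ} (hm : 0 < m) (hs : s ≤ m) (h : ¬ m ∣ s * c) :
    fr m c (m - s) = 1 - fr m c s := by
  have h1 := mod_compl hm hs h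
  have h2 : (((m - s) * c % m : ℕ) : ℝ) + ((s * c % m : ℕ) : ℝ) = m := by exact_mod_cast h1
  have hm' : (m : ℝ) ≠ 0 := Nat.cast_ne_zero.mpr hm.ne'
  unfold fr
  field_simp
  linarith

theorem fr_add_ne {c b s : ℕ} (hm : 0 < m) (h : ¬ m ∣ s * (c + b)) :
    fr m c s + fr m b s ≠ 1 := by
  intro h1
  apply h
  have hm' : (m : ℝ) ≠ 0 := Nat.cast_ne_zero.mpr hm.ne'
  unfold fr at h1
  have h2 : ((s * c % m : ℕ) : ℝ) + ((s * b % m : ℕ) : ℝ) = m := by
    field_simp at h1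
    linarith
  have h3 : s * c % m + s * b % m = m := by exact_mod_cast h2
  apply Nat.dvd_of_mod_eq_zero
  rw [mul_add, Nat.add_mod, h3, Nat.mod_self]

theorem not_dvd_mul {c s : ℕ} (hs : s.Coprime m) (h : ¬ m ∣ c) : ¬ m ∣ s * c :=
  fun h1 => h (hs.symm.dvd_of_dvd_mul_left h1)

/-- the CM type of the curve -/
def Ph (m : ℕ) (ζ : E) (c b : ℕ) : Set (E →+* ℂ) :=
  {φ | fr m c (sg m ζ φ) + fr m b (sg m ζ φ) < 1}

theorem isType_Ph (hm : 1 < m) (hζ : IsPrimitiveRoot ζ m) {c b : ℕ} (hc : ¬ m ∣ c)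
    (hb : ¬ m ∣ b) (hcb : ¬ m ∣ c + b) : HC.IsType (Ph m ζ c b) := by
  intro φ
  have h0 : 0 < m := by omega
  have h1 := sg_coprime h0 hζ φ
  have h2 := (sg_spec h0 hζ φ).1.le
  have h3 := fr_add_ne h0 (not_dvd_mul h1 hcb)
  unfold Ph
  rw [mem_ofPred_eq, mem_ofPred_eq, sg_conj hm hζ, fr_compl h0 h2 (not_dvd_mul h1 hc),
    fr_compl h0 h2 (not_dvd_mul h1 hb)]
  constructor
  · intro h
    linarith
  · intro h
    by_contra h4
    have h5 : 1 < fr m c (sg m ζ φ) + fr m b (sg m ζ φ) :=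
      lt_of_le_of_ne (not_lt.mp h4) h3.symm
    exact h (by linarith)

end

end SE.S4
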