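import Mathlib

/-!
# PROJECT SE, part S4: the integral `H` (incomplete beta function without singularities)

`Hf μ ν t = ∫₀¹ (1 - t r^(1/μ))^(ν-1) dr = μ ∫₀¹ s^(μ-1) (1 - t s)^(ν-1) ds`, holomorphic on
`ℂ - [1,∞)`, and `t H'(t) / μ + H(t) = (1-t)^(ν-1)`.
-/

set_option autoImplicit false

open MeasureTheory Complex Set intervalIntegral

noncomputable section

namespace SE.S4

/-- `μ ∫₀¹ s^(μ-1) (1 - t s)^(ν-1) ds`, with `s = r^(1/μ)`. -/
def Hf (μ ν : ℝ) (t : ℂ) : ℂ :=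
  ∫ r in (0 : ℝ)..1, (1 - t * ((r ^ (1 / μ) : ℝ) : ℂ)) ^ ((ν : ℂ) - 1)

theorem mem_slit {t : ℂ} (ht : 1 - t ∈ slitPlane) {q : ℝ} (h0 : 0 ≤ q) (h1 : q ≤ 1) :
    1 - t * (q : ℂ) ∈ slitPlane := by
  rw [mem_slitPlane_iff] at ht ⊢
  simp only [sub_re, one_re, mul_re, ofReal_re, ofReal_im, mul_zero, sub_zero, sub_im, one_im,
    mul_im, zero_sub] at ht ⊢
  rcases eq_or_lt_of_le h0 with hq | hq
  · left
    rw [← hq]
    norm_num
  · rcases ht with h | h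
    · left
      nlinarith
    · right
      intro h2
      apply h
      have : t.im * q = 0 := by linarith
      rcases mul_eq_zero.mp this with h3 | h3
      · linarith
      · exact absurd h3 hq.ne'

theorem q_mem {μ r : ℝ} (hμ : 0 < μ) (hr : r ∈ Icc (0 : ℝ) 1) :
    0 ≤ r ^ (1 / μ) ∧ r ^ (1 / μ) ≤ 1 :=
  ⟨Real.rpow_nonneg hr.1 _, Real.rpow_le_one hr.1 hr.2 (by positivity)⟩

/-- the derivative of the integrand -/
def Hd (μ ν : ℝ) (t : ℂ) (r : ℝ) : ℂ :=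
  ((ν : ℂ) - 1) * (1 - t * ((r ^ (1 / μ) : ℝ) : ℂ)) ^ ((ν : ℂ) - 1 - 1) *
    (-((r ^ (1 / μ) : ℝ) : ℂ))

theorem cont_q {μ : ℝ} (hμ : 0 < μ) :
    Continuous (fun x : ℂ × ℝ => 1 - x.1 * ((x.2 ^ (1 / μ) : ℝ) : ℂ)) := by
  have h : Continuous (fun x : ℂ × ℝ => x.2 ^ (1 / μ)) :=
    continuous_snd.rpow_const (fun _ => Or.inr (by positivity))
  exact continuous_const.sub (continuous_fst.mul (continuous_ofReal.comp h))

/-- continuity of the integrand and of its derivative -/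
theorem contOn_pow {μ : ℝ} (hμ : 0 < μ) (e : ℂ) {K : Set ℂ} (hK : ∀ t ∈ K, 1 - t ∈ slitPlane) :
    ContinuousOn (fun x : ℂ × ℝ => (1 - x.1 * ((x.2 ^ (1 / μ) : ℝ) : ℂ)) ^ e)
      (K ×ˢ Icc (0 : ℝ) 1) := by
  intro x hx
  have h1 : 1 - x.1 * ((x.2 ^ (1 / μ) : ℝ) : ℂ) ∈ slitPlane :=
    mem_slit (hK _ hx.1) (q_mem hμ hx.2).1 (q_mem hμ hx.2).2
  have h2 : ContinuousAt (fun x : ℂ × ℝ => 1 - x.1 * ((x.2 ^ (1 / μ) : ℝ) : ℂ)) x :=
    (cont_q hμ).continuousAt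
  exact (h2.cpow continuousAt_const h1).continuousWithinAt

theorem contOn_Hd {μ : ℝ} (ν : ℝ) (hμ : 0 < μ) {K : Set ℂ} (hK : ∀ t ∈ K, 1 - t ∈ slitPlane) :
    ContinuousOn (fun x : ℂ × ℝ => Hd μ ν x.1 x.2) (K ×ˢ Icc (0 : ℝ) 1) := by
  unfold Hd
  have h : Continuous (fun x : ℂ × ℝ => -((x.2 ^ (1 / μ) : ℝ) : ℂ)) :=
    (continuous_ofReal.comp (continuous_snd.rpow_const (fun _ => Or.inr (by positivity)))).neg
  exact (continuousOn_const.mul (contOn_pow hμ _ hK)).mul h.continuousOn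

theorem isOpen_slit : IsOpen {t : ℂ | 1 - t ∈ slitPlane} :=
  isOpen_slitPlane.preimage (continuous_const.sub continuous_id)

theorem slice {K : Set ℂ} {f : ℂ × ℝ → ℂ} (hf : ContinuousOn f (K ×ˢ Icc (0 : ℝ) 1)) {t : ℂ}
    (ht : t ∈ K) : ContinuousOn (fun r => f (t, r)) (Icc (0 : ℝ) 1) :=
  hf.comp (continuous_const.prodMk continuous_id).continuousOn (fun _ hr => ⟨ht, hr⟩)

theorem slice_int {K : Set ℂ} {f : ℂ × ℝ → ℂ} (hf : ContinuousOn f (K ×ˢ Icc (0 : ℝ) 1)) {t : ℂ}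
    (ht : t ∈ K) : IntervalIntegrable (fun r => f (t, r)) volume 0 1 :=
  (slice hf ht).intervalIntegrable_of_Icc zero_le_one

theorem hasDerivAt_Hf {μ ν : ℝ} (hμ : 0 < μ) {t : ℂ} (ht : 1 - t ∈ slitPlane) :
    HasDerivAt (Hf μ ν) (∫ r in (0 : ℝ)..1, Hd μ ν t r) t := by
  obtain ⟨ε, hε, hb⟩ := Metric.nhds_basis_closedBall.mem_iff.mp (isOpen_slit.mem_nhds ht)
  have hK : ∀ s ∈ Metric.closedBall t ε, 1 - s ∈ slitPlane := fun s hs => hb hs
  have hcomp : IsCompact (Metric.closedBall t ε ×ˢ Icc (0 : ℝ) 1) :=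
    (isCompact_closedBall t ε).prod isCompact_Icc
  obtain ⟨C, hC⟩ := hcomp.exists_bound_of_continuousOn (contOn_Hd ν hμ hK)
  have hmt : t ∈ Metric.closedBall t ε := Metric.mem_closedBall_self hε.le
  have hsub : Set.uIoc (0 : ℝ) 1 ⊆ Icc 0 1 := by
    rw [uIoc_of_le zero_le_one]
    exact Ioc_subset_Icc_self
  refine (intervalIntegral.hasDerivAt_integral_of_dominated_loc_of_deriv_le (F := fun t r =>
    (1 - t * ((r ^ (1 / μ) : ℝ) : ℂ)) ^ ((ν : ℂ) - 1)) (F' := Hd μ ν) (bound := fun _ => C)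
    (Metric.ball_mem_nhds t hε) ?_ ?_ ?_ ?_ ?_ ?_).2
  · filter_upwards [Metric.closedBall_mem_nhds t hε] with s hs
    exact ((slice_int (contOn_pow hμ ((ν : ℂ) - 1) hK) hs).aestronglyMeasurable).mono_measure
      (by rw [uIoc_of_le zero_le_one])
  · exact slice_int (contOn_pow hμ ((ν : ℂ) - 1) hK) hmt
  · exact ((slice_int (contOn_Hd ν hμ hK) hmt).aestronglyMeasurable).mono_measure
      (by rw [uIoc_of_le zero_le_one])
  · filter_upwards with r hr s hs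
    exact hC (s, r) ⟨Metric.ball_subset_closedBall hs, hsub hr⟩
  · exact intervalIntegrable_const
  · filter_upwards with r hr s hs
    have h1 : 1 - s * ((r ^ (1 / μ) : ℝ) : ℂ) ∈ slitPlane :=
      mem_slit (hK _ (Metric.ball_subset_closedBall hs)) (q_mem hμ (hsub hr)).1
        (q_mem hμ (hsub hr)).2
    have h2 : HasDerivAt (fun s : ℂ => 1 - s * ((r ^ (1 / μ) : ℝ) : ℂ))
        (-((r ^ (1 / μ) : ℝ) : ℂ)) s := by
      simpa using ((hasDerivAt_id s).mul_const ((r ^ (1 / μ) : ℝ) : ℂ)).const_sub 1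
    exact h2.cpow_const h1

/-- integration by parts -/
theorem Hf_ident {μ ν : ℝ} (hμ : 0 < μ) (hμ1 : μ < 1) {t : ℂ} (ht : 1 - t ∈ slitPlane) :
    Hf μ ν t + t / μ * (∫ r in (0 : ℝ)..1, Hd μ ν t r) = (1 - t) ^ ((ν : ℂ) - 1) := by
  have hK : ∀ s ∈ ({t} : Set ℂ), 1 - s ∈ slitPlane := by
    intro s hs
    rw [mem_singleton_iff.mp hs]
    exact ht
  have hi1 := slice_int (contOn_pow hμ ((ν : ℂ) - 1) hK) (mem_singleton t)
  have hi2 := slice_int (contOn_Hd ν hμ hK) (mem_singleton t)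
  have hp : 1 ≤ 1 / μ := by
    rw [le_div_iff₀ hμ]
    linarith
  have key : ∀ r ∈ uIcc (0 : ℝ) 1,
      HasDerivAt (fun r : ℝ => (r : ℂ) * (1 - t * ((r ^ (1 / μ) : ℝ) : ℂ)) ^ ((ν : ℂ) - 1))
        ((1 - t * ((r ^ (1 / μ) : ℝ) : ℂ)) ^ ((ν : ℂ) - 1) + t / μ * Hd μ ν t r) r := by
    intro r hr
    rw [uIcc_of_le zero_le_one] at hr
    have h1 : 1 - t * ((r ^ (1 / μ) : ℝ) : ℂ) ∈ slitPlane :=
      mem_slit ht (q_mem hμ hr).1 (q_mem hμ hr).2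
    have h2 : HasDerivAt (fun r : ℝ => r ^ (1 / μ)) (1 / μ * r ^ (1 / μ - 1)) r :=
      Real.hasDerivAt_rpow_const (Or.inr hp)
    have h3 : HasDerivAt (fun r : ℝ => 1 - t * ((r ^ (1 / μ) : ℝ) : ℂ))
        (-(t * ((1 / μ * r ^ (1 / μ - 1) : ℝ) : ℂ))) r := by
      simpa using (h2.ofReal_comp.const_mul t).const_sub 1
    have h4 : HasDerivAt (fun z : ℂ => z ^ ((ν : ℂ) - 1))
        (((ν : ℂ) - 1) * (1 - t * ((r ^ (1 / μ) : ℝ) : ℂ)) ^ ((ν : ℂ) - 1 - 1))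
        (1 - t * ((r ^ (1 / μ) : ℝ) : ℂ)) := by
      simpa using (hasDerivAt_id _).cpow_const (c := (ν : ℂ) - 1) h1
    have h5 := h4.comp r h3
    have h6 := (hasDerivAt_id r).ofReal_comp.mul h5
    refine h6.congr_deriv ?_
    have h7 : (r : ℂ) * ((r ^ (1 / μ - 1) : ℝ) : ℂ) = ((r ^ (1 / μ) : ℝ) : ℂ) := by
      rw [← ofReal_mul]
      congr 1
      rcases eq_or_lt_of_le hr.1 with h0 | h0
      · have h00 : (0 : ℝ) ^ (1 / μ) = 0 := Real.zero_rpow (one_div_pos.mpr hμ).ne'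
        rw [← h0, h00, zero_mul]
      · rw [← Real.rpow_one_add' h0.le (by linarith)]
        congr 1
        ring
    simp only [Function.comp_apply, id_eq, ofReal_one, one_mul]
    unfold Hd
    rw [ofReal_mul, ← h7]
    push_cast
    ring
  have hint : IntervalIntegrable (fun r => (1 - t * ((r ^ (1 / μ) : ℝ) : ℂ)) ^ ((ν : ℂ) - 1) +
      t / μ * Hd μ ν t r) volume 0 1 := hi1.add (hi2.const_mul (t / μ))
  have h8 := integral_eq_sub_of_hasDerivAt key hint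
  rw [intervalIntegral.integral_add hi1 (hi2.const_mul (t / μ)),
    intervalIntegral.integral_const_mul] at h8
  unfold Hf
  rw [h8]
  simp

end SE.S4
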