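import Pool.Agent.Lib.SE.S4.Hf

/-!
# PROJECT SE, part S4: the two primitives of `t^(μ-1) (1-t)^(ν-1) dt`

`w` is a local branch of `t^μ (1-t)^ν`. `P0` is the primitive of `w / (t(1-t))` which vanishes at
`0`, `-P1` the one which vanishes at `1`. On `ℂ - (-∞,0] - [1,∞)` their difference is constant.
-/

set_option autoImplicit false

open MeasureTheory Complex Set

noncomputable section

namespace SE.S4

/-- `∫₀ᵗ w / (t(1-t)) dt` -/
def P0 (μ ν : ℝ) (w t : ℂ) : ℂ := w * (1 - t) ^ (-(ν : ℂ)) * Hf μ ν t / μ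

/-- `∫ₜ¹ w / (t(1-t)) dt` -/
def P1 (μ ν : ℝ) (w t : ℂ) : ℂ := w * t ^ (-(μ : ℂ)) * Hf ν μ (1 - t) / ν

theorem P0_mul (μ ν : ℝ) (c w t : ℂ) : P0 μ ν (c * w) t = c * P0 μ ν w t := by
  unfold P0
  ring

theorem P1_mul (μ ν : ℝ) (c w t : ℂ) : P1 μ ν (c * w) t = c * P1 μ ν w t := by
  unfold P1
  ring

theorem P1_eq (μ ν : ℝ) (w t : ℂ) : P1 μ ν w t = P0 ν μ w (1 - t) := by
  unfold P0 P1
  rw [sub_sub_cancel]

theorem hasDerivAt_P0 {μ ν : ℝ} (hμ : 0 < μ) (hμ1 : μ < 1) {w : ℂ → ℂ} {t : ℂ} (ht0 : t ≠ 0)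
    (ht : 1 - t ∈ slitPlane) (hw : HasDerivAt w (w t * (μ / t - ν / (1 - t))) t) :
    HasDerivAt (fun t => P0 μ ν (w t) t) (w t / (t * (1 - t))) t := by
  have h1t : 1 - t ≠ 0 := slitPlane_ne_zero ht
  have h1 : HasDerivAt (fun t : ℂ => 1 - t) (-1) t := by
    simpa using (hasDerivAt_id t).const_sub 1
  have h2 : HasDerivAt (fun t : ℂ => (1 - t) ^ (-(ν : ℂ)))
      (-(ν : ℂ) * (1 - t) ^ (-(ν : ℂ) - 1) * (-1)) t := h1.cpow_const ht
  have h3 := ((hw.mul h2).mul (hasDerivAt_Hf (ν := ν) hμ ht)).div_const (μ : ℂ)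
  have h4 := Hf_ident (ν := ν) hμ hμ1 ht
  have hμ' : (μ : ℂ) ≠ 0 := ofReal_ne_zero.mpr hμ.ne'
  refine h3.congr_deriv ?_
  have h5 : (1 - t) ^ (-(ν : ℂ) - 1) = (1 - t) ^ (-(ν : ℂ)) / (1 - t) := by
    rw [cpow_sub _ _ h1t, cpow_one]
  have h6 : (1 - t) ^ (-(ν : ℂ)) * (1 - t) ^ ((ν : ℂ) - 1) = 1 / (1 - t) := by
    rw [← cpow_add _ _ h1t]
    have : -(ν : ℂ) + ((ν : ℂ) - 1) = -1 := by ring
    rw [this, cpow_neg_one, one_div]
  rw [h5]
  set D := ∫ r in (0 : ℝ)..1, Hd μ ν t r with hD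
  set A := (1 - t) ^ (-(ν : ℂ)) with hA
  set H := Hf μ ν t with hH
  have h7 : A * (H + t / μ * D) = 1 / (1 - t) := by
    rw [h4, h6]
  simp only [Pi.mul_apply]
  have h8 : w t / (t * (1 - t)) = w t / t * (A * (H + t / μ * D)) := by
    rw [h7]
    field_simp
  rw [h8]
  field_simp
  ring

theorem hasDerivAt_P1 {μ ν : ℝ} (hν : 0 < ν) (hν1 : ν < 1) {w : ℂ → ℂ} {t : ℂ}
    (ht : t ∈ slitPlane) (ht1 : 1 - t ≠ 0)
    (hw : HasDerivAt w (w t * (μ / t - ν / (1 - t))) t) :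
    HasDerivAt (fun t => P1 μ ν (w t) t) (-(w t / (t * (1 - t)))) t := by
  have h1 : HasDerivAt (fun t : ℂ => 1 - t) (-1) t := by
    simpa using (hasDerivAt_id t).const_sub 1
  have h1' : HasDerivAt (fun s : ℂ => 1 - s) (-1) (1 - t) := by
    simpa using (hasDerivAt_id (1 - t)).const_sub 1
  have hw' : HasDerivAt (fun s => w (1 - s)) (w (1 - (1 - t)) *
      (ν / (1 - t) - μ / (1 - (1 - t)))) (1 - t) := by
    have hw2 : HasDerivAt w (w t * (μ / t - ν / (1 - t))) (1 - (1 - t)) := by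
      rw [sub_sub_cancel]
      exact hw
    refine (hw2.comp (1 - t) h1').congr_deriv ?_
    rw [sub_sub_cancel]
    ring
  have h2 := hasDerivAt_P0 (μ := ν) (ν := μ) hν hν1 (w := fun s => w (1 - s)) (t := 1 - t) ht1
    (by rw [sub_sub_cancel]; exact ht) hw'
  have h3 := h2.comp t h1
  have h4 : (fun t => P1 μ ν (w t) t) =
      (fun s => P0 ν μ (w (1 - s)) s) ∘ (fun t : ℂ => 1 - t) := by
    funext s
    simp only [Function.comp_apply, P1_eq, sub_sub_cancel]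
  rw [h4]
  refine h3.congr_deriv ?_
  rw [sub_sub_cancel]
  ring

/-- the doubly slit plane -/
def Om : Set ℂ := {t | t ∈ slitPlane ∧ 1 - t ∈ slitPlane}

theorem isOpen_Om : IsOpen Om := isOpen_slitPlane.inter isOpen_slit

theorem half_mem {z : ℂ} (hz : z ∈ slitPlane) {a b : ℝ} (ha : 0 ≤ a) (hb : 0 ≤ b)
    (hab : a + b = 1) : (a : ℂ) * (1 / 2) + b * z ∈ slitPlane := by
  rw [mem_slitPlane_iff] at hz ⊢
  have e1 : ((a : ℂ) * (1 / 2) + b * z).re = a / 2 + b * z.re := by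
    simp [mul_re]
    ring
  have e2 : ((a : ℂ) * (1 / 2) + b * z).im = b * z.im := by
    simp [mul_im]
  rw [e1, e2]
  rcases eq_or_lt_of_le hb with h0 | h0
  · left
    rw [← h0] at hab ⊢
    linarith
  · rcases hz with h | h
    · left
      have := mul_pos h0 h
      linarith
    · right
      exact mul_ne_zero h0.ne' h

theorem star_Om : StarConvex ℝ (1 / 2 : ℂ) Om := by
  intro t ht a b ha hb hab
  refine ⟨?_, ?_⟩
  · have := half_mem ht.1 ha hb hab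
    simpa [real_smul] using this
  · have := half_mem ht.2 ha hb hab
    have e : (1 : ℂ) - (a • (1 / 2 : ℂ) + b • t) = (a : ℂ) * (1 / 2) + b * (1 - t) := by
      have h1 : (1 : ℂ) = (a : ℂ) + b := by
        rw [← ofReal_add, hab, ofReal_one]
      simp only [real_smul]
      linear_combination (1 / 1 : ℂ) * h1
    rw [e]
    exact this

theorem half_mem_Om : (1 / 2 : ℂ) ∈ Om := by
  refine ⟨?_, ?_⟩
  · rw [mem_slitPlane_iff]
    left
    norm_num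
  · rw [mem_slitPlane_iff]
    left
    norm_num

theorem preconn_Om : IsPreconnected Om :=
  (star_Om.isPathConnected half_mem_Om).isConnected.isPreconnected

/-- the principal branch of `t^μ (1-t)^ν` -/
def W0 (μ ν : ℝ) (t : ℂ) : ℂ := t ^ (μ : ℂ) * (1 - t) ^ (ν : ℂ)

theorem hasDerivAt_W0 {μ ν : ℝ} {t : ℂ} (ht : t ∈ Om) :
    HasDerivAt (W0 μ ν) (W0 μ ν t * (μ / t - ν / (1 - t))) t := by
  have h0 : t ≠ 0 := slitPlane_ne_zero ht.1
  have h1t : 1 - t ≠ 0 := slitPlane_ne_zero ht.2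
  have h1 : HasDerivAt (fun t : ℂ => 1 - t) (-1) t := by
    simpa using (hasDerivAt_id t).const_sub 1
  have h2 : HasDerivAt (fun t : ℂ => (1 - t) ^ (ν : ℂ)) ((ν : ℂ) * (1 - t) ^ ((ν : ℂ) - 1) * (-1))
    t := h1.cpow_const ht.2
  have h3 : HasDerivAt (fun t : ℂ => t ^ (μ : ℂ)) ((μ : ℂ) * t ^ ((μ : ℂ) - 1) * 1) t :=
    (hasDerivAt_id t).cpow_const ht.1
  refine (h3.mul h2).congr_deriv ?_
  rw [cpow_sub _ _ h0, cpow_one, cpow_sub _ _ h1t, cpow_one]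
  unfold W0
  field_simp
  ring

/-- the constant `∫₀¹ t^(μ-1) (1-t)^(ν-1) dt` -/
def Bc (μ ν : ℝ) : ℂ := P0 μ ν (W0 μ ν (1 / 2)) (1 / 2) + P1 μ ν (W0 μ ν (1 / 2)) (1 / 2)

theorem sum_const {μ ν : ℝ} (hμ : 0 < μ) (hμ1 : μ < 1) (hν : 0 < ν) (hν1 : ν < 1) {t : ℂ}
    (ht : t ∈ Om) : P0 μ ν (W0 μ ν t) t + P1 μ ν (W0 μ ν t) t = Bc μ ν := by
  have hd : ∀ s ∈ Om, HasDerivAt (fun t => P0 μ ν (W0 μ ν t) t + P1 μ ν (W0 μ ν t) t) 0 s := by
    intro s hs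
    have h1 := hasDerivAt_P0 (ν := ν) hμ hμ1 (slitPlane_ne_zero hs.1) hs.2 (hasDerivAt_W0 hs)
    have h2 := hasDerivAt_P1 (μ := μ) hν hν1 hs.1 (slitPlane_ne_zero hs.2) (hasDerivAt_W0 hs)
    refine (h1.add h2).congr_deriv ?_
    ring
  exact isOpen_Om.is_const_of_deriv_eq_zero preconn_Om
    (fun s hs => (hd s hs).differentiableAt.differentiableWithinAt)
    (fun s hs => (hd s hs).deriv) ht half_mem_Om

theorem Hf_half {μ ν : ℝ} (hμ : 0 < μ) : ∃ x : ℝ, 0 < x ∧ Hf μ ν (1 / 2) = x := by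
  refine ⟨∫ r in (0 : ℝ)..1, (1 - 1 / 2 * r ^ (1 / μ)) ^ (ν - 1), ?_, ?_⟩
  · apply intervalIntegral.intervalIntegral_pos_of_pos_on
    · apply ContinuousOn.intervalIntegrable_of_Icc zero_le_one
      intro r hr
      have h1 := q_mem hμ hr
      have h2 : ContinuousAt (fun r : ℝ => 1 - 1 / 2 * r ^ (1 / μ)) r :=
        continuousAt_const.sub (continuousAt_const.mul
          (Real.continuousAt_rpow_const _ _ (Or.inr (by positivity))))
      refine (h2.rpow_const (Or.inl ?_)).continuousWithinAt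
      have := h1.2
      linarith [h1.2]
    · intro r hr
      have h1 := q_mem hμ (Ioo_subset_Icc_self hr)
      apply Real.rpow_pos_of_pos
      linarith [h1.2]
    · exact zero_lt_one
  · unfold Hf
    rw [← intervalIntegral.integral_ofReal]
    apply intervalIntegral.integral_congr
    intro r hr
    rw [uIcc_of_le zero_le_one] at hr
    have h1 := q_mem hμ hr
    have h2 : (0 : ℝ) ≤ 1 - 1 / 2 * r ^ (1 / μ) := by linarith [h1.2]
    simp only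
    rw [ofReal_cpow h2]
    push_cast
    rfl

theorem Bc_ne {μ ν : ℝ} (hμ : 0 < μ) (hν : 0 < ν) : Bc μ ν ≠ 0 := by
  obtain ⟨x, hx, hx'⟩ := Hf_half (ν := ν) hμ
  obtain ⟨y, hy, hy'⟩ := Hf_half (ν := μ) hν
  have e1 : (1 : ℂ) - 1 / 2 = 1 / 2 := by norm_num
  have e2 : ∀ z : ℝ, (1 / 2 : ℂ) ^ (z : ℂ) = (((1 / 2 : ℝ) ^ z : ℝ) : ℂ) := by
    intro z
    rw [ofReal_cpow (by norm_num)]
    norm_num
  have e3 : ∀ z : ℝ, (1 / 2 : ℂ) ^ (-(z : ℂ)) = (((1 / 2 : ℝ) ^ (-z) : ℝ) : ℂ) := by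
    intro z
    rw [← ofReal_neg, e2]
  have p : ∀ z : ℝ, 0 < (1 / 2 : ℝ) ^ z := fun z => Real.rpow_pos_of_pos (by norm_num) z
  have : Bc μ ν = (((1 / 2 : ℝ) ^ μ * (1 / 2 : ℝ) ^ ν * (1 / 2 : ℝ) ^ (-ν) * x / μ +
      (1 / 2 : ℝ) ^ μ * (1 / 2 : ℝ) ^ ν * (1 / 2 : ℝ) ^ (-μ) * y / ν : ℝ) : ℂ) := by
    unfold Bc P0 P1 W0
    rw [e1, e2, e2, e3, e3, hx', hy']
    push_cast
    ring
  rw [this]
  apply ofReal_ne_zero.mpr
  have := p μ
  have := p ν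
  have := p (-μ)
  have := p (-ν)
  positivity

end SE.S4
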